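import Mathlib

/-!
Collinear points in extremal pairs with a rich pencil.

Let `(P, L)` be extremal, `|P| = |L| = n`, with `I` incidences, let `K ≥ 1`, and let `R` be a set
of lines which is the union of `s` pencils: each consists of parallel lines, or of lines through
one point that is outside `P` or on at most `K I / n` lines of `L`.  Then some line `ℓ` of `R`
satisfies `n |P ∩ ⋃ R| ≤ I (|R| + K s |P ∩ ℓ|)`.  So, if `R` covers `ε n` points of `P` and
`|R| ≤ ε n² / (2 I)`, then `ℓ` has at least `ε n² / (2 K s I)` points of `P`, and at least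
`ε √n / (4 K s)` of them.
-/

set_option autoImplicit false

namespace Pool.Agent.Results.MP_a4ff43_co.RichPencils

open Finset
open scoped Classical

/-- The points of the plane. -/
abbrev Pt : Type := ℝ × ℝ

/-- The set of solutions of `a x + b y = c`. -/
def lineSet (a b c : ℝ) : Set Pt := {p | a * p.1 + b * p.2 = c}

/-- `ℓ` is a line of the plane. -/
def IsLine (ℓ : Set Pt) : Prop := ∃ a b c : ℝ, (a ≠ 0 ∨ b ≠ 0) ∧ ℓ = lineSet a b c

/-- The number of incidences between the points `P` and the lines `L`. -/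
noncomputable def incidences (P : Finset Pt) (L : Finset (Set Pt)) : ℕ :=
  ((P ×ˢ L).filter (fun x => x.1 ∈ x.2)).card

/-- The number of points of `P` on `ℓ`. -/
noncomputable def richness (P : Finset Pt) (ℓ : Set Pt) : ℕ := (P.filter (fun p => p ∈ ℓ)).card

/-- The pair `(P, L)` is extremal: `|P| = |L|`, and no pair of the same sizes has more
incidences. -/
def Extremal (P : Finset Pt) (L : Finset (Set Pt)) : Prop :=
  P.card = L.card ∧ (∀ ℓ ∈ L, IsLine ℓ) ∧
    ∀ (P' : Finset Pt) (L' : Finset (Set Pt)), P'.card = P.card → L'.card = P.card →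
      (∀ ℓ ∈ L', IsLine ℓ) → incidences P' L' ≤ incidences P L

/-- The number of points of `P` on the lines of `R`. -/
noncomputable def covered (P : Finset Pt) (R : Finset (Set Pt)) : ℕ :=
  (P.filter (fun p => ∃ ℓ ∈ R, p ∈ ℓ)).card

/-- The union of the sets of lines in `𝓡`. -/
noncomputable def lines (𝓡 : Finset (Finset (Set Pt))) : Finset (Set Pt) := 𝓡.biUnion id

/-- The number of lines of `L` through `p`. -/
noncomputable def degree (L : Finset (Set Pt)) (p : Pt) : ℕ := (L.filter (fun ℓ => p ∈ ℓ)).card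

/-- The lines of `R` are all parallel, or they all pass through one point, which is outside `P` or
on at most `K I(P, L) / |P|` lines of `L`. -/
def Pencil (P : Finset Pt) (L : Finset (Set Pt)) (K : ℕ) (R : Finset (Set Pt)) : Prop :=
  (∃ a b : ℝ, (a ≠ 0 ∨ b ≠ 0) ∧ ∀ ℓ ∈ R, ∃ c : ℝ, ℓ = lineSet a b c) ∨
    ∃ q : Pt, (q ∉ P ∨ P.card * degree L q ≤ K * incidences P L) ∧ ∀ ℓ ∈ R, IsLine ℓ ∧ q ∈ ℓ

lemma incidences_eq_lines (P : Finset Pt) (L : Finset (Set Pt)) :
    incidences P L = ∑ ℓ ∈ L, richness P ℓ := by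
  unfold incidences richness
  rw [Finset.card_filter, Finset.sum_product_right]
  refine Finset.sum_congr rfl fun ℓ _ => ?_
  rw [Finset.card_filter]

lemma incidences_eq_points (P : Finset Pt) (L : Finset (Set Pt)) :
    incidences P L = ∑ p ∈ P, degree L p := by
  unfold incidences degree
  rw [Finset.card_filter, Finset.sum_product]
  refine Finset.sum_congr rfl fun p _ => ?_
  rw [Finset.card_filter]

/-- Two lines with two common points are equal. -/
lemma line_eq {ℓ m : Set Pt} (hℓ : IsLine ℓ) (hm : IsLine m) {p q : Pt} (hpq : p ≠ q)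
    (h1 : p ∈ ℓ) (h2 : q ∈ ℓ) (h3 : p ∈ m) (h4 : q ∈ m) : ℓ = m := by
  obtain ⟨a, b, c, hab, rfl⟩ := hℓ
  obtain ⟨a', b', c', hab', rfl⟩ := hm
  obtain ⟨p1, p2⟩ := p
  obtain ⟨q1, q2⟩ := q
  simp only [lineSet, Set.mem_ofPred_eq] at h1 h2 h3 h4
  have hd : p1 - q1 ≠ 0 ∨ p2 - q2 ≠ 0 := by
    by_contra hcon
    push Not at hcon
    exact hpq (Prod.ext (sub_eq_zero.mp hcon.1) (sub_eq_zero.mp hcon.2))
  have e1 : a * (p1 - q1) + b * (p2 - q2) = 0 := by linear_combination h1 - h2
  have e2 : a' * (p1 - q1) + b' * (p2 - q2) = 0 := by linear_combination h3 - h4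
  have hdet : a * b' - a' * b = 0 := by
    rcases hd with hd | hd
    · have : (a * b' - a' * b) * (p1 - q1) = 0 := by linear_combination b' * e1 - b * e2
      rcases mul_eq_zero.mp this with h | h
      · exact h
      · exact absurd h hd
    · have : (a * b' - a' * b) * (p2 - q2) = 0 := by linear_combination a * e2 - a' * e1
      rcases mul_eq_zero.mp this with h | h
      · exact h
      · exact absurd h hd
  -- a common multiple
  obtain ⟨r, hr, hra, hrb⟩ : ∃ r : ℝ, r ≠ 0 ∧ a' = r * a ∧ b' = r * b := by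
    rcases hab with ha | hb
    · refine ⟨a' / a, ?_, by field_simp, ?_⟩
      · intro h0
        have ha' : a' = 0 := by
          rcases div_eq_zero_iff.mp h0 with h | h
          · exact h
          · exact absurd h ha
        have hb' : a * b' = 0 := by rw [ha'] at hdet; linarith
        rcases mul_eq_zero.mp hb' with h | h
        · exact ha h
        · rcases hab' with h' | h'
          · exact h' ha'
          · exact h' h
      · rw [div_mul_eq_mul_div, eq_div_iff ha]; linarith
    · refine ⟨b' / b, ?_, ?_, by field_simp⟩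
      · intro h0
        have hb' : b' = 0 := by
          rcases div_eq_zero_iff.mp h0 with h | h
          · exact h
          · exact absurd h hb
        have ha' : a' * b = 0 := by rw [hb'] at hdet; linarith
        rcases mul_eq_zero.mp ha' with h | h
        · rcases hab' with h' | h'
          · exact h' h
          · exact h' hb'
        · exact hb h
      · rw [div_mul_eq_mul_div, eq_div_iff hb]; linarith
  have hrc : c' = r * c := by rw [← h3, ← h1, hra, hrb]; ring
  ext ⟨x, y⟩
  simp only [lineSet, Set.mem_ofPred_eq]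
  rw [hra, hrb, hrc]
  constructor
  · intro h; linear_combination r * h
  · intro h
    have : r * (a * x + b * y - c) = 0 := by linear_combination h
    rcases mul_eq_zero.mp this with h' | h'
    · exact absurd h' hr
    · linarith

/-- A line different from the line `m` has two distinct points outside `m`. -/
lemma two_points {ℓ m : Set Pt} (hℓ : IsLine ℓ) (hm : IsLine m) (hne : ℓ ≠ m) :
    ∃ p q : Pt, p ≠ q ∧ p ∈ ℓ ∧ q ∈ ℓ ∧ p ∉ m ∧ q ∉ m := by
  obtain ⟨a, b, c, hab, rfl⟩ := id hℓ
  have hD : a ^ 2 + b ^ 2 ≠ 0 := by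
    rcases hab with h | h
    · have := sq_pos_of_ne_zero h; positivity
    · have := sq_pos_of_ne_zero h; positivity
  -- the points of the line
  let f : ℝ → Pt := fun s => (a * c / (a ^ 2 + b ^ 2) - s * b, b * c / (a ^ 2 + b ^ 2) + s * a)
  have hf : ∀ s, f s ∈ lineSet a b c := by
    intro s
    simp only [f, lineSet, Set.mem_ofPred_eq]
    field_simp
    ring
  have hinj : Function.Injective f := by
    intro s t hst
    simp only [f, Prod.mk.injEq] at hst
    obtain ⟨h1, h2⟩ := hst
    rcases hab with h | h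
    · have : (s - t) * a = 0 := by linarith
      rcases mul_eq_zero.mp this with h' | h'
      · linarith
      · exact absurd h' h
    · have : (s - t) * b = 0 := by linarith
      rcases mul_eq_zero.mp this with h' | h'
      · linarith
      · exact absurd h' h
  -- at most one of the points lies on m
  have hone : ∀ s t, f s ∈ m → f t ∈ m → s = t := by
    intro s t hs ht
    by_contra hst
    exact hne (line_eq hℓ hm (fun h => hst (hinj h)) (hf s) (hf t) hs ht)
  by_cases h0 : f 0 ∈ m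
  · refine ⟨f 1, f 2, fun h => ?_, hf 1, hf 2, fun h => ?_, fun h => ?_⟩
    · have := hinj h; norm_num at this
    · have := hone _ _ h0 h; norm_num at this
    · have := hone _ _ h0 h; norm_num at this
  · by_cases h1 : f 1 ∈ m
    · refine ⟨f 0, f 2, fun h => ?_, hf 0, hf 2, h0, fun h => ?_⟩
      · have := hinj h; norm_num at this
      · have := hone _ _ h1 h; norm_num at this
    · refine ⟨f 0, f 1, fun h => ?_, hf 0, hf 1, h0, h1⟩
      have := hinj h; norm_num at this

/-- Exchange of a line. -/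
lemma swap_line {P : Finset Pt} {L : Finset (Set Pt)} (hE : Extremal P L) {ℓ ℓ₀ : Set Pt}
    (hℓ : IsLine ℓ) (hnot : ℓ ∉ L) (h0 : ℓ₀ ∈ L) : richness P ℓ ≤ richness P ℓ₀ := by
  obtain ⟨hc, hL, hmax⟩ := hE
  have hn : ℓ ∉ L.erase ℓ₀ := fun h => hnot (Finset.mem_of_mem_erase h)
  have hcard : (insert ℓ (L.erase ℓ₀)).card = P.card := by
    rw [Finset.card_insert_of_notMem hn, Finset.card_erase_of_mem h0, hc]
    have : 0 < L.card := Finset.card_pos.mpr ⟨_, h0⟩
    omega
  have h := hmax P (insert ℓ (L.erase ℓ₀)) rfl hcard (by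
    intro m hm
    rcases Finset.mem_insert.mp hm with rfl | hm
    · exact hℓ
    · exact hL m (Finset.mem_of_mem_erase hm))
  rw [incidences_eq_lines, incidences_eq_lines, Finset.sum_insert hn,
    ← Finset.add_sum_erase L (fun m => richness P m) h0] at h
  omega

/-- Exchange of a point, after a transformation of the configuration. -/
lemma swap_point {P : Finset Pt} {L R : Finset (Set Pt)} (hE : Extremal P L) {p₀ : Pt}
    (h0 : p₀ ∈ P) (φ : Pt → Pt) (f : Set Pt → Set Pt) (hφ : Set.InjOn φ P) (hf : Set.InjOn f L)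
    (hfl : ∀ ℓ ∈ L, IsLine (f ℓ)) (hinc : ∀ p ∈ P, ∀ ℓ ∈ L, p ∈ ℓ → φ p ∈ f ℓ)
    (q : Pt) (hq : ∀ p ∈ P, φ p ≠ q) (hR : R ⊆ L) (hRq : ∀ ℓ ∈ R, q ∈ f ℓ) :
    R.card ≤ degree L p₀ := by
  obtain ⟨hc, hL, hmax⟩ := hE
  have hqn : q ∉ (P.erase p₀).image φ := by
    intro h
    obtain ⟨p, hp, hpq⟩ := Finset.mem_image.mp h
    exact hq p (Finset.mem_of_mem_erase hp) hpq
  have hinjE : Set.InjOn φ (P.erase p₀ : Finset Pt) := by
    intro x hx y hy hxy
    exact hφ (Finset.mem_of_mem_erase hx) (Finset.mem_of_mem_erase hy) hxy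
  have hcP : (insert q ((P.erase p₀).image φ)).card = P.card := by
    rw [Finset.card_insert_of_notMem hqn, Finset.card_image_of_injOn hinjE,
      Finset.card_erase_of_mem h0]
    have : 0 < P.card := Finset.card_pos.mpr ⟨_, h0⟩
    omega
  have hcL : (L.image f).card = P.card := by rw [Finset.card_image_of_injOn hf, hc]
  have h := hmax _ _ hcP hcL (by
    intro m hm
    obtain ⟨ℓ, hℓ, rfl⟩ := Finset.mem_image.mp hm
    exact hfl ℓ hℓ)
  rw [incidences_eq_points, incidences_eq_points, Finset.sum_insert hqn,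
    Finset.sum_image hinjE, ← Finset.add_sum_erase P (fun p => degree L p) h0] at h
  have h1 : R.card ≤ degree (L.image f) q := by
    have : (R.image f) ⊆ (L.image f).filter (fun ℓ => q ∈ ℓ) := by
      intro m hm
      obtain ⟨ℓ, hℓ, rfl⟩ := Finset.mem_image.mp hm
      exact Finset.mem_filter.mpr ⟨Finset.mem_image_of_mem f (hR hℓ), hRq ℓ hℓ⟩
    have h2 := Finset.card_le_card this
    rw [Finset.card_image_of_injOn (fun x hx y hy hxy => hf (hR hx) (hR hy) hxy)] at h2
    exact h2
  have h2 : ∑ p ∈ P.erase p₀, degree L p ≤ ∑ p ∈ P.erase p₀, degree (L.image f) (φ p) := by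
    refine Finset.sum_le_sum fun p hp => ?_
    have hpP := Finset.mem_of_mem_erase hp
    have : (L.filter (fun ℓ => p ∈ ℓ)).image f ⊆ (L.image f).filter (fun ℓ => φ p ∈ ℓ) := by
      intro m hm
      obtain ⟨ℓ, hℓ, rfl⟩ := Finset.mem_image.mp hm
      obtain ⟨hℓL, hpℓ⟩ := Finset.mem_filter.mp hℓ
      exact Finset.mem_filter.mpr ⟨Finset.mem_image_of_mem f hℓL, hinc p hpP ℓ hℓL hpℓ⟩
    have h3 := Finset.card_le_card this
    rw [Finset.card_image_of_injOn (fun x hx y hy hxy =>
      hf (Finset.mem_filter.mp hx).1 (Finset.mem_filter.mp hy).1 hxy)] at h3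
    exact h3
  omega

/-- The projective map that sends the point at infinity of the lines `a x + b y = c` to the
origin. -/
lemma exists_projective (a b : ℝ) (hab : a ≠ 0 ∨ b ≠ 0) (P : Finset Pt) (L : Finset (Set Pt))
    (hL : ∀ ℓ ∈ L, IsLine ℓ) :
    ∃ (φ : Pt → Pt) (f : Set Pt → Set Pt), Set.InjOn φ P ∧ Set.InjOn f L ∧
      (∀ ℓ ∈ L, IsLine (f ℓ)) ∧ (∀ p ∈ P, ∀ ℓ ∈ L, p ∈ ℓ → φ p ∈ f ℓ) ∧
      (∀ p ∈ P, φ p ≠ (0, 0)) ∧ ∀ ℓ ∈ L, (∃ c : ℝ, ℓ = lineSet a b c) → ((0, 0) : Pt) ∈ f ℓ := by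
  have hD : a ^ 2 + b ^ 2 ≠ 0 := by
    rcases hab with h | h
    · have := sq_pos_of_ne_zero h; positivity
    · have := sq_pos_of_ne_zero h; positivity
  have hab' : -b ≠ 0 ∨ a ≠ 0 := by
    rcases hab with h | h
    · exact Or.inr h
    · exact Or.inl (neg_ne_zero.mpr h)
  -- a line that will be sent to infinity
  have hinjs : Function.Injective (fun s : ℝ => lineSet (-b) a s) := by
    intro s t hst
    have h1 : ((-b * s / (a ^ 2 + b ^ 2), a * s / (a ^ 2 + b ^ 2)) : Pt) ∈ lineSet (-b) a s := by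
      simp only [lineSet, Set.mem_ofPred_eq]
      field_simp
      ring
    have hst' : lineSet (-b) a s = lineSet (-b) a t := hst
    rw [hst'] at h1
    simp only [lineSet, Set.mem_ofPred_eq] at h1
    rw [← h1]
    field_simp
    ring
  obtain ⟨s, hsP, hsL⟩ : ∃ s : ℝ, (∀ p ∈ P, -b * p.1 + a * p.2 ≠ s) ∧ lineSet (-b) a s ∉ L := by
    have hfin : ((P.image (fun p : Pt => -b * p.1 + a * p.2) : Finset ℝ) : Set ℝ) ∪
        ((fun s : ℝ => lineSet (-b) a s) ⁻¹' (L : Set (Set Pt))) ≠ Set.univ := by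
      intro hu
      have : (Set.univ : Set ℝ).Finite := by
        rw [← hu]
        exact (Finset.finite_toSet _).union
          (Set.Finite.preimage hinjs.injOn (Finset.finite_toSet L))
      exact Set.infinite_univ this
    obtain ⟨s, hs⟩ := (Set.ne_univ_iff_exists_notMem _).mp hfin
    refine ⟨s, fun p hp hps => hs (Or.inl ?_), fun h => hs (Or.inr h)⟩
    exact Finset.mem_coe.mpr (Finset.mem_image.mpr ⟨p, hp, hps⟩)
  let w : Pt → ℝ := fun p => -b * p.1 + a * p.2 - s
  let z : Pt → ℝ := fun p => a * p.1 + b * p.2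
  let φ : Pt → Pt := fun p => (1 / w p, z p / w p)
  have hw : ∀ p ∈ P, w p ≠ 0 := fun p hp h => hsP p hp (by simp only [w] at h; linarith)
  have hm : IsLine (lineSet (-b) a s) := ⟨-b, a, s, hab', rfl⟩
  have hwm : ∀ p : Pt, p ∉ lineSet (-b) a s → w p ≠ 0 := by
    intro p hp h
    apply hp
    simp only [lineSet, Set.mem_ofPred_eq]
    simp only [w] at h
    linarith
  -- the image lines
  have hex : ∀ ℓ : Set Pt, IsLine ℓ → ℓ ≠ lineSet (-b) a s → ∃ ℓ' : Set Pt, IsLine ℓ' ∧
      (∀ p : Pt, w p ≠ 0 → (p ∈ ℓ ↔ φ p ∈ ℓ')) ∧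
      ((∃ c : ℝ, ℓ = lineSet a b c) → ((0, 0) : Pt) ∈ ℓ') := by
    intro ℓ hℓ hne
    by_cases hpar : ∃ c : ℝ, ℓ = lineSet a b c
    · obtain ⟨c, rfl⟩ := hpar
      refine ⟨lineSet (-c) 1 0, ⟨-c, 1, 0, Or.inr one_ne_zero, rfl⟩, ?_, ?_⟩
      · intro p hp
        simp only [lineSet, Set.mem_ofPred_eq, φ]
        have e : -c * (1 / w p) + 1 * (z p / w p) = (z p - c) / w p := by ring
        rw [e, div_eq_zero_iff]
        simp only [hp, or_false, z]
        constructor
        · intro h; linarith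
        · intro h; linarith
      · intro _
        simp [lineSet]
    · obtain ⟨α, β, γ, hαβ, rfl⟩ := hℓ
      set A : ℝ := (α * a + β * b) / (a ^ 2 + b ^ 2) with hA
      set B : ℝ := (-α * b + β * a) / (a ^ 2 + b ^ 2) with hB
      have hkey : ∀ p : Pt, α * p.1 + β * p.2 - γ = A * z p + B * w p + (B * s - γ) := by
        intro p
        simp only [hA, hB, w, z]
        field_simp
        ring
      refine ⟨lineSet (B * s - γ) A (-B), ⟨B * s - γ, A, -B, ?_, rfl⟩, ?_, fun h => absurd h hpar⟩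
      · by_contra hcon
        push Not at hcon
        obtain ⟨hC0, hA0⟩ := hcon
        -- then the line is `w = 0`
        have hB0 : B ≠ 0 := by
          intro hB0
          have h1 : α * a + β * b = 0 := by
            rw [hA, div_eq_zero_iff] at hA0
            exact hA0.resolve_right hD
          have h2 : -α * b + β * a = 0 := by
            rw [hB, div_eq_zero_iff] at hB0
            exact hB0.resolve_right hD
          have h3 : α * (a ^ 2 + b ^ 2) = 0 := by linear_combination a * h1 - b * h2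
          have h4 : β * (a ^ 2 + b ^ 2) = 0 := by linear_combination b * h1 + a * h2
          rcases hαβ with h | h
          · exact (mul_ne_zero h hD) h3
          · exact (mul_ne_zero h hD) h4
        apply hne
        ext p
        have hk := hkey p
        rw [hA0, hC0] at hk
        simp only [lineSet, Set.mem_ofPred_eq]
        have hk' : α * p.1 + β * p.2 - γ = B * (-b * p.1 + a * p.2 - s) := by
          rw [hk]; simp only [w]; ring
        constructor
        · intro h
          have : B * (-b * p.1 + a * p.2 - s) = 0 := by rw [← hk', h]; ring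
          have := (mul_eq_zero.mp this).resolve_left hB0
          linarith
        · intro h
          have : α * p.1 + β * p.2 - γ = 0 := by rw [hk', h]; ring
          linarith
      · intro p hp
        have hk := hkey p
        simp only [lineSet, Set.mem_ofPred_eq, φ]
        have e : (B * s - γ) * (1 / w p) + A * (z p / w p) + B
            = (α * p.1 + β * p.2 - γ) / w p := by
          rw [hk]; field_simp; ring
        constructor
        · intro h
          have : (α * p.1 + β * p.2 - γ) / w p = 0 := by rw [h]; simp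
          rw [this] at e
          linarith
        · intro h
          have : (α * p.1 + β * p.2 - γ) / w p = 0 := by rw [← e, h]; ring
          rw [div_eq_zero_iff] at this
          have := this.resolve_right hp
          linarith
  let f : Set Pt → Set Pt := fun ℓ =>
    if h : IsLine ℓ ∧ ℓ ≠ lineSet (-b) a s then (hex ℓ h.1 h.2).choose else ∅
  have hfspec : ∀ ℓ ∈ L, IsLine (f ℓ) ∧ (∀ p : Pt, w p ≠ 0 → (p ∈ ℓ ↔ φ p ∈ f ℓ)) ∧
      ((∃ c : ℝ, ℓ = lineSet a b c) → ((0, 0) : Pt) ∈ f ℓ) := by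
    intro ℓ hℓ
    have h : IsLine ℓ ∧ ℓ ≠ lineSet (-b) a s := ⟨hL ℓ hℓ, fun h => hsL (h ▸ hℓ)⟩
    have : f ℓ = (hex ℓ h.1 h.2).choose := by simp only [f]; rw [dif_pos h]
    rw [this]
    exact (hex ℓ h.1 h.2).choose_spec
  refine ⟨φ, f, ?_, ?_, fun ℓ hℓ => (hfspec ℓ hℓ).1, ?_, ?_, fun ℓ hℓ => (hfspec ℓ hℓ).2.2⟩
  · intro p hp q hq hpq
    have hwp := hw p hp
    have hwq := hw q hq
    simp only [φ, Prod.mk.injEq] at hpq
    obtain ⟨h1, h2⟩ := hpq
    have e1 : w p = w q := by
      rw [one_div, one_div] at h1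
      exact inv_injective h1
    have e2 : z p = z q := by
      rw [e1] at h2
      field_simp at h2
      exact h2
    simp only [w, z] at e1 e2
    have e3 : (p.1 - q.1) * (a ^ 2 + b ^ 2) = 0 := by linear_combination a * e2 - b * e1
    have e4 : (p.2 - q.2) * (a ^ 2 + b ^ 2) = 0 := by linear_combination b * e2 + a * e1
    have e5 := (mul_eq_zero.mp e3).resolve_right hD
    have e6 := (mul_eq_zero.mp e4).resolve_right hD
    exact Prod.ext (by linarith) (by linarith)
  · intro ℓ hℓ m hm' hfe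
    have h1 : ℓ ≠ lineSet (-b) a s := fun h => hsL (h ▸ hℓ)
    obtain ⟨p, q, hpq, hp, hq, hp', hq'⟩ := two_points (hL ℓ hℓ) hm h1
    have hp2 : p ∈ m := by
      rw [(hfspec m hm').2.1 p (hwm p hp'), ← hfe, ← (hfspec ℓ hℓ).2.1 p (hwm p hp')]
      exact hp
    have hq2 : q ∈ m := by
      rw [(hfspec m hm').2.1 q (hwm q hq'), ← hfe, ← (hfspec ℓ hℓ).2.1 q (hwm q hq')]
      exact hq
    exact line_eq (hL ℓ hℓ) (hL m hm') hpq hp hq hp2 hq2
  · intro p hp ℓ hℓ hpl
    exact ((hfspec ℓ hℓ).2.1 p (hw p hp)).mp hpl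
  · intro p hp h
    have : 1 / w p = 0 := congrArg Prod.fst h
    exact (one_div_ne_zero (hw p hp)) this

/-- Parallel lines of `L`, or lines of `L` through one point outside `P`, are at most as many as
the lines of `L` through any point of `P`. -/
lemma card_le_degree {P : Finset Pt} {L R : Finset (Set Pt)} (hE : Extremal P L) (hR : R ⊆ L)
    (hp : (∃ a b : ℝ, (a ≠ 0 ∨ b ≠ 0) ∧ ∀ ℓ ∈ R, ∃ c : ℝ, ℓ = lineSet a b c) ∨
      ∃ q : Pt, q ∉ P ∧ ∀ ℓ ∈ R, q ∈ ℓ) {p₀ : Pt} (h0 : p₀ ∈ P) : R.card ≤ degree L p₀ := by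
  rcases hp with ⟨a, b, hab, hpar⟩ | ⟨q, hq, hqR⟩
  · obtain ⟨φ, f, h1, h2, h3, h4, h5, h6⟩ := exists_projective a b hab P L hE.2.1
    exact swap_point hE h0 φ f h1 h2 h3 h4 (0, 0) h5 hR (fun ℓ hℓ => h6 ℓ (hR hℓ) (hpar ℓ hℓ))
  · exact swap_point hE h0 id id (Set.injOn_id _) (Set.injOn_id _) (fun ℓ hℓ => hE.2.1 ℓ hℓ)
      (fun p _ ℓ _ h => h) q (fun p hp h => hq (by rw [← h]; exact hp)) hR hqR

/-- A line outside `L` has at most `I / n` points of `P`. -/
lemma outside_le {P : Finset Pt} {L : Finset (Set Pt)} (hE : Extremal P L) {ℓ : Set Pt}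
    (hℓ : IsLine ℓ) (hnot : ℓ ∉ L) : P.card * richness P ℓ ≤ incidences P L := by
  rw [incidences_eq_lines, hE.1]
  calc L.card * richness P ℓ = ∑ _m ∈ L, richness P ℓ := by rw [Finset.sum_const, smul_eq_mul]
    _ ≤ ∑ m ∈ L, richness P m := Finset.sum_le_sum fun m hm => swap_line hE hℓ hnot hm

/-- A pencil of lines of `L` has at most `K I / n` lines. -/
lemma pencil_le {P : Finset Pt} {L R : Finset (Set Pt)} {K : ℕ} (hK : 1 ≤ K)
    (hE : Extremal P L) (hR : R ⊆ L) (hp : Pencil P L K R) :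
    P.card * R.card ≤ K * incidences P L := by
  have key : ((∃ a b : ℝ, (a ≠ 0 ∨ b ≠ 0) ∧ ∀ ℓ ∈ R, ∃ c : ℝ, ℓ = lineSet a b c) ∨
      ∃ q : Pt, q ∉ P ∧ ∀ ℓ ∈ R, q ∈ ℓ) → P.card * R.card ≤ K * incidences P L := by
    intro h
    calc P.card * R.card = ∑ _p ∈ P, R.card := by rw [Finset.sum_const, smul_eq_mul]
      _ ≤ ∑ p ∈ P, degree L p := Finset.sum_le_sum fun p hpP => card_le_degree hE hR h hpP
      _ = 1 * incidences P L := by rw [incidences_eq_points, one_mul]
      _ ≤ K * incidences P L := Nat.mul_le_mul_right _ hK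
  rcases hp with h | ⟨q, hq, h⟩
  · exact key (Or.inl h)
  · rcases hq with hq | hq
    · exact key (Or.inr ⟨q, hq, fun ℓ hℓ => (h ℓ hℓ).2⟩)
    · refine (Nat.mul_le_mul_left _ (Finset.card_le_card ?_)).trans hq
      intro ℓ hℓ
      exact Finset.mem_filter.mpr ⟨hR hℓ, (h ℓ hℓ).2⟩

lemma pencil_line {P : Finset Pt} {L R : Finset (Set Pt)} {K : ℕ} (hp : Pencil P L K R) :
    ∀ ℓ ∈ R, IsLine ℓ := by
  rcases hp with ⟨a, b, hab, h⟩ | ⟨q, _, h⟩
  · intro ℓ hℓ
    obtain ⟨c, hc⟩ := h ℓ hℓ
    exact ⟨a, b, c, hab, hc⟩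
  · exact fun ℓ hℓ => (h ℓ hℓ).1

lemma pencil_mono {P : Finset Pt} {L R R' : Finset (Set Pt)} {K : ℕ} (hp : Pencil P L K R)
    (h : R' ⊆ R) : Pencil P L K R' := by
  rcases hp with ⟨a, b, hab, h'⟩ | ⟨q, hq, h'⟩
  · exact Or.inl ⟨a, b, hab, fun ℓ hℓ => h' ℓ (h hℓ)⟩
  · exact Or.inr ⟨q, hq, fun ℓ hℓ => h' ℓ (h hℓ)⟩

/-- The main inequality. -/
lemma main {P : Finset Pt} {L : Finset (Set Pt)} (hE : Extremal P L) {K : ℕ} (hK : 1 ≤ K)
    (𝓡 : Finset (Finset (Set Pt))) (hp : ∀ R ∈ 𝓡, Pencil P L K R)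
    (hne : (𝓡.biUnion id).Nonempty) :
    ∃ ℓ ∈ 𝓡.biUnion id,
      P.card * (P.filter (fun p => ∃ m ∈ 𝓡.biUnion id, p ∈ m)).card ≤
        incidences P L * ((𝓡.biUnion id).card + K * 𝓡.card * richness P ℓ) := by
  obtain ⟨ℓ, hℓ, hmax⟩ := Finset.exists_max_image (𝓡.biUnion id) (fun m => richness P m) hne
  refine ⟨ℓ, hℓ, ?_⟩
  set R := 𝓡.biUnion id with hRdef
  set I := incidences P L with hI
  set n := P.card with hn
  set R₁ := R.filter (fun m => I < n * richness P m) with hR₁
  have hline : ∀ m ∈ R, IsLine m := by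
    intro m hm
    obtain ⟨S, hS, hmS⟩ := Finset.mem_biUnion.mp hm
    exact pencil_line (hp S hS) m hmS
  have hR₁L : R₁ ⊆ L := by
    intro m hm
    obtain ⟨hmR, hlt⟩ := Finset.mem_filter.mp hm
    by_contra hnot
    exact absurd hlt (not_lt.mpr (outside_le hE (hline m hmR) hnot))
  -- the rich lines are few
  have hfew : n * R₁.card ≤ K * 𝓡.card * I := by
    have h1 : R₁ ⊆ 𝓡.biUnion (fun S => S ∩ R₁) := by
      intro m hm
      obtain ⟨S, hS, hmS⟩ := Finset.mem_biUnion.mp (Finset.mem_filter.mp hm).1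
      exact Finset.mem_biUnion.mpr ⟨S, hS, Finset.mem_inter.mpr ⟨hmS, hm⟩⟩
    calc n * R₁.card ≤ n * (𝓡.biUnion (fun S => S ∩ R₁)).card :=
          Nat.mul_le_mul_left _ (Finset.card_le_card h1)
      _ ≤ n * ∑ S ∈ 𝓡, (S ∩ R₁).card := Nat.mul_le_mul_left _ Finset.card_biUnion_le
      _ = ∑ S ∈ 𝓡, n * (S ∩ R₁).card := by rw [Finset.mul_sum]
      _ ≤ ∑ _S ∈ 𝓡, K * I := by
          refine Finset.sum_le_sum fun S hS => ?_
          exact pencil_le hK hE (Finset.inter_subset_right.trans hR₁L)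
            (pencil_mono (hp S hS) Finset.inter_subset_left)
      _ = K * 𝓡.card * I := by rw [Finset.sum_const, smul_eq_mul]; ring
  have hcov : (P.filter (fun p => ∃ m ∈ R, p ∈ m)).card ≤ ∑ m ∈ R, richness P m := by
    have : P.filter (fun p => ∃ m ∈ R, p ∈ m) ⊆ R.biUnion (fun m => P.filter (fun p => p ∈ m)) := by
      intro p hp'
      obtain ⟨hpP, m, hm, hpm⟩ := Finset.mem_filter.mp hp'
      exact Finset.mem_biUnion.mpr ⟨m, hm, Finset.mem_filter.mpr ⟨hpP, hpm⟩⟩
    exact (Finset.card_le_card this).trans Finset.card_biUnion_le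
  have hsplit : ∑ m ∈ R, n * richness P m ≤ n * R₁.card * richness P ℓ + R.card * I := by
    rw [← Finset.sum_filter_add_sum_filter_not R (fun m => I < n * richness P m)]
    refine Nat.add_le_add ?_ ?_
    · calc ∑ m ∈ R.filter (fun m => I < n * richness P m), n * richness P m
          ≤ ∑ _m ∈ R.filter (fun m => I < n * richness P m), n * richness P ℓ := by
            refine Finset.sum_le_sum fun m hm => ?_
            exact Nat.mul_le_mul_left _ (hmax m (Finset.mem_filter.mp hm).1)
        _ = n * R₁.card * richness P ℓ := by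
            rw [Finset.sum_const, smul_eq_mul, ← hR₁]; ring
    · calc ∑ m ∈ R.filter (fun m => ¬ I < n * richness P m), n * richness P m
          ≤ ∑ _m ∈ R.filter (fun m => ¬ I < n * richness P m), I := by
            refine Finset.sum_le_sum fun m hm => ?_
            exact not_lt.mp (Finset.mem_filter.mp hm).2
        _ ≤ R.card * I := by
            rw [Finset.sum_const, smul_eq_mul]
            exact Nat.mul_le_mul_right _ (Finset.card_filter_le _ _)
  calc n * (P.filter (fun p => ∃ m ∈ R, p ∈ m)).card ≤ n * ∑ m ∈ R, richness P m :=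
        Nat.mul_le_mul_left _ hcov
    _ = ∑ m ∈ R, n * richness P m := by rw [Finset.mul_sum]
    _ ≤ n * R₁.card * richness P ℓ + R.card * I := hsplit
    _ ≤ K * 𝓡.card * I * richness P ℓ + R.card * I :=
        Nat.add_le_add_right (Nat.mul_le_mul_right _ hfew) _
    _ = I * (R.card + K * 𝓡.card * richness P ℓ) := by ring

/-- The elementary incidence bound. -/
lemma sq_incidences_le {P : Finset Pt} {L : Finset (Set Pt)} (hL : ∀ ℓ ∈ L, IsLine ℓ)
    (hc : P.card = L.card) : incidences P L ^ 2 ≤ 4 * P.card ^ 3 := by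
  have h1 : incidences P L ^ 2 ≤ P.card * ∑ p ∈ P, degree L p ^ 2 := by
    rw [incidences_eq_points]
    exact sq_sum_le_card_mul_sum_sq
  have h2 : ∑ p ∈ P, degree L p ^ 2 ≤ incidences P L + L.card * L.card := by
    have e1 : ∀ p ∈ P, degree L p ^ 2 =
        ∑ ℓ ∈ L, ∑ m ∈ L, (if p ∈ ℓ then 1 else 0) * (if p ∈ m then 1 else 0) := by
      intro p _
      rw [degree, Finset.card_filter, sq, Finset.sum_mul_sum]
    rw [Finset.sum_congr rfl e1, Finset.sum_comm]
    calc ∑ ℓ ∈ L, ∑ p ∈ P, ∑ m ∈ L, (if p ∈ ℓ then 1 else 0) * (if p ∈ m then 1 else 0)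
        ≤ ∑ ℓ ∈ L, (richness P ℓ + L.card) := by
          refine Finset.sum_le_sum fun ℓ hℓ => ?_
          rw [Finset.sum_comm]
          calc ∑ m ∈ L, ∑ p ∈ P, (if p ∈ ℓ then 1 else 0) * (if p ∈ m then 1 else 0)
              ≤ ∑ m ∈ L, ((if m = ℓ then richness P ℓ else 0) + 1) := by
                refine Finset.sum_le_sum fun m hm => ?_
                have e2 : ∑ p ∈ P, (if p ∈ ℓ then 1 else 0) * (if p ∈ m then 1 else 0) =
                    (P.filter (fun p => p ∈ ℓ ∧ p ∈ m)).card := by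
                  rw [Finset.card_filter]
                  refine Finset.sum_congr rfl fun p _ => ?_
                  by_cases h : p ∈ ℓ <;> by_cases h' : p ∈ m <;> simp [h, h']
                rw [e2]
                by_cases hml : m = ℓ
                · subst hml
                  simp only [and_self, if_true]
                  exact Nat.le_succ _
                · rw [if_neg hml, zero_add]
                  rw [Finset.card_le_one]
                  intro x hx y hy
                  by_contra hxy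
                  obtain ⟨_, hx1, hx2⟩ := Finset.mem_filter.mp hx
                  obtain ⟨_, hy1, hy2⟩ := Finset.mem_filter.mp hy
                  exact hml (line_eq (hL m hm) (hL ℓ hℓ) hxy hx2 hy2 hx1 hy1)
            _ = richness P ℓ + L.card := by
                rw [Finset.sum_add_distrib, Finset.sum_ite_eq' L ℓ, if_pos hℓ]
                simp
      _ = incidences P L + L.card * L.card := by
          rw [Finset.sum_add_distrib, ← incidences_eq_lines, Finset.sum_const, smul_eq_mul]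
  rw [← hc] at h2
  have h3 : incidences P L ^ 2 ≤ P.card * (incidences P L + P.card * P.card) :=
    h1.trans (Nat.mul_le_mul_left _ h2)
  by_cases hsmall : incidences P L ≤ 2 * P.card
  · rcases Nat.eq_zero_or_pos P.card with h0 | h0
    · rw [h0] at hsmall ⊢
      have : incidences P L = 0 := by omega
      rw [this]; simp
    · nlinarith [Nat.mul_le_mul hsmall hsmall, Nat.mul_le_mul_left (P.card ^ 2) h0]
  · push Not at hsmall
    nlinarith [Nat.mul_le_mul_right (incidences P L) hsmall.le]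

/-- Let `(P, L)` be extremal, `|P| = |L| = n`, with `I` incidences, let `K ≥ 1`, and let
`R = lines 𝓡` be nonempty and the union of `s = |𝓡|` pencils, each consisting of parallel lines or
of lines through one point that is outside `P` or on at most `K I / n` lines of `L`.  Then some line
`ℓ` of `R` satisfies `n |P ∩ ⋃ R| ≤ I (|R| + K s |P ∩ ℓ|)`; if `|P ∩ ⋃ R| ≥ ε n` and
`|R| ≤ ε n² / (2 I)`, then `ℓ` has at least `ε n² / (2 K s I)` points of `P`, and at least
`ε √n / (4 K s)` of them. -/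
theorem result (P : Finset Pt) (L : Finset (Set Pt)) (hE : Extremal P L) (K : ℕ) (hK : 1 ≤ K)
    (𝓡 : Finset (Finset (Set Pt))) (hp : ∀ R ∈ 𝓡, Pencil P L K R) (hne : (lines 𝓡).Nonempty) :
    ∃ ℓ ∈ lines 𝓡,
      P.card * covered P (lines 𝓡) ≤
          incidences P L * ((lines 𝓡).card + K * 𝓡.card * richness P ℓ) ∧
        ∀ ε : ℝ, ε * P.card ≤ covered P (lines 𝓡) →
          2 * (lines 𝓡).card * incidences P L ≤ ε * P.card ^ 2 →
            ε * P.card ^ 2 ≤ 2 * K * 𝓡.card * incidences P L * richness P ℓ ∧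
              ε * Real.sqrt P.card ≤ 4 * K * 𝓡.card * richness P ℓ := by
  obtain ⟨ℓ, hℓ, h⟩ := main hE hK 𝓡 hp hne
  refine ⟨ℓ, hℓ, h, fun ε h1 h2 => ?_⟩
  have h3 := sq_incidences_le hE.2.1 hE.1
  unfold lines covered at h1
  unfold lines at h2
  set n := P.card
  set I := incidences P L
  set t := (𝓡.biUnion id).card
  set c := (P.filter (fun p => ∃ m ∈ 𝓡.biUnion id, p ∈ m)).card
  set s := 𝓡.card
  set r := richness P ℓ
  have hR : (n : ℝ) * c ≤ I * (t + K * s * r) := by exact_mod_cast h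
  have h4 : ε * (n : ℝ) ^ 2 ≤ n * c := by
    have := mul_le_mul_of_nonneg_left h1 (Nat.cast_nonneg n : (0 : ℝ) ≤ n)
    nlinarith
  have h5 : ε * (n : ℝ) ^ 2 ≤ 2 * K * s * I * r := by nlinarith
  refine ⟨h5, ?_⟩
  rcases Nat.eq_zero_or_pos n with h0 | h0
  · rw [h0]
    simp only [Nat.cast_zero, Real.sqrt_zero, mul_zero]
    positivity
  · have hn : (0 : ℝ) < n := by exact_mod_cast h0
    have hq : Real.sqrt n ^ 2 = n := Real.sq_sqrt hn.le
    have hq0 : 0 < Real.sqrt n := Real.sqrt_pos.mpr hn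
    have hI : (I : ℝ) ≤ 2 * n * Real.sqrt n := by
      have h6 : (I : ℝ) ^ 2 ≤ 4 * (n : ℝ) ^ 3 := by exact_mod_cast h3
      have h7 : (I : ℝ) ^ 2 ≤ (2 * n * Real.sqrt n) ^ 2 := by
        calc (I : ℝ) ^ 2 ≤ 4 * (n : ℝ) ^ 3 := h6
          _ = 4 * (n : ℝ) ^ 2 * Real.sqrt n ^ 2 := by rw [hq]; ring
          _ = (2 * n * Real.sqrt n) ^ 2 := by ring
      exact (pow_le_pow_iff_left₀ (Nat.cast_nonneg _) (by positivity) two_ne_zero).mp h7
    have h8 : ε * (n : ℝ) ^ 2 ≤ 4 * K * s * r * (n * Real.sqrt n) := by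
      calc ε * (n : ℝ) ^ 2 ≤ 2 * K * s * I * r := h5
        _ = (2 * K * s * r) * I := by ring
        _ ≤ (2 * K * s * r) * (2 * n * Real.sqrt n) :=
            mul_le_mul_of_nonneg_left hI (by positivity)
        _ = 4 * K * s * r * (n * Real.sqrt n) := by ring
    have h9 : (ε * Real.sqrt n) * (n * Real.sqrt n) ≤ (4 * K * s * r) * (n * Real.sqrt n) := by
      calc (ε * Real.sqrt n) * (n * Real.sqrt n) = ε * n * Real.sqrt n ^ 2 := by ring
        _ = ε * (n : ℝ) ^ 2 := by rw [hq]; ring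
        _ ≤ _ := h8
    exact le_of_mul_le_mul_right h9 (by positivity)

end Pool.Agent.Results.MP_a4ff43_co.RichPencils
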